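import Pool.Agent.H458.AR.Coh
import Pool.Graph.R_pool_sql_team_seeded_63374d34.N199.PP.GL
import Pool.Graph.R_pool_sql_team_seeded_63374d34.N630.PP.GP
import Pool.Graph.R_pool_sql_team_seeded_63374d34.N721.PP.GF

/-!
# Project AR (helper458), part CD: the local condition implies local triviality (helper969)
-/

set_option autoImplicit false
set_option linter.all false

open Polynomial IsDedekindDomain WeierstrassCurve WeierstrassCurve.Affine
open Pool.Agent.TH115.GD Pool.Agent.N874.PP Pool.Agent.N199.PP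
open scoped Classical

namespace Pool.Agent.H969.AR458

open Pool.Agent.N630.PP

section signs

variable {M Ω : Type} [Field M] [Field Ω] [Algebra M Ω] {A B : M}

/-- a point of order two with prescribed signs, up to a common sign -/
theorem sign_point (h3 : S_GP3) (h6 : (6 : M) ≠ 0) (hD : 4 * A ^ 3 + 27 * B ^ 2 ≠ 0)
    {t₁ t₂ t₃ : Ω} (r1 : Rt A B t₁) (r2 : Rt A B t₂) (r3 : Rt A B t₃) (n12 : t₁ ≠ t₂)
    (n13 : t₁ ≠ t₃) (n23 : t₂ ≠ t₃) (a b : Ω → Ω)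
    (ha : ∀ t, (t = t₁ ∨ t = t₂ ∨ t = t₃) → a t ≠ 0 ∧ a t ^ 2 = b t ^ 2) :
    ∃ (T : Pt (sW A B) Ω) (s : Ω), (2 : ℕ) • T = 0 ∧ (s = 1 ∨ s = -1) ∧
      ∀ t, (t = t₁ ∨ t = t₂ ∨ t = t₃) → sg T t * a t = s * b t := by
  obtain ⟨-, -, -, h34⟩ := h3 M Ω A B h6 hD t₁ t₂ t₃ r1 r2 r3 n12 n13 n23
  have key : ∀ t, (t = t₁ ∨ t = t₂ ∨ t = t₃) → ∃ e : Ω, (e = 1 ∨ e = -1) ∧ e * a t = b t := by
    intro t ht
    obtain ⟨h0, h2⟩ := ha t ht
    rcases sq_eq_sq_iff_eq_or_eq_neg.1 h2 with h | h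
    · exact ⟨1, Or.inl rfl, by rw [one_mul, h]⟩
    · exact ⟨-1, Or.inr rfl, by rw [h]; ring⟩
  obtain ⟨e1, he1, k1⟩ := key t₁ (Or.inl rfl)
  obtain ⟨e2, he2, k2⟩ := key t₂ (Or.inr (Or.inl rfl))
  obtain ⟨e3, he3, k3⟩ := key t₃ (Or.inr (Or.inr rfl))
  have hp : e1 * e2 * e3 = 1 ∨ e1 * e2 * e3 = -1 := by
    rcases he1 with rfl | rfl <;> rcases he2 with rfl | rfl <;> rcases he3 with rfl | rfl <;>
      norm_num
  rcases hp with hp | hp
  · obtain ⟨T, hT, s1, s2, s3⟩ := h34 e1 e2 e3 he1 he2 he3 hp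
    refine ⟨T, 1, hT, Or.inl rfl, ?_⟩
    rintro t (rfl | rfl | rfl)
    · rw [s1, k1, one_mul]
    · rw [s2, k2, one_mul]
    · rw [s3, k3, one_mul]
  · have neg : ∀ e : Ω, (e = 1 ∨ e = -1) → (-e = 1 ∨ -e = -1) := by
      rintro e (rfl | rfl)
      · exact Or.inr rfl
      · exact Or.inl (neg_neg 1)
    obtain ⟨T, hT, s1, s2, s3⟩ := h34 (-e1) (-e2) (-e3) (neg _ he1) (neg _ he2) (neg _ he3)
      (by linear_combination -hp)
    refine ⟨T, -1, hT, Or.inr rfl, ?_⟩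
    rintro t (rfl | rfl | rfl)
    · rw [s1, ← k1]; ring
    · rw [s2, ← k2]; ring
    · rw [s3, ← k3]; ring

end signs

/-- The local condition implies local triviality, over any extension `F` of a field `M` -/
theorem main (M F : Type) [Field M] [Field F] [Algebra M F] (A B : M) (h6 : (6 : M) ≠ 0)
    (hD : 4 * A ^ 3 + 27 * B ^ 2 ≠ 0) (f : (Sep M ≃ₐ[M] Sep M) → Pt (sW A B) (Sep M))
    (hf2 : ∀ σ, (2 : ℕ) • f σ = 0) (β : Sep M → Sep M) (h : M[X]) (hβ : IsBeta A B f β)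
    (hh : ∀ t : Sep M, Rt A B t → aeval t h = β t ^ 2)
    (hP : Pool.Agent.N874.PM.PLoc F A B h) : LocTriv (sW A B) F (Sep F) f := by
  have h1 := gp1
  have h2 := gp2
  have h3 := gp3
  have h4 := gp4
  haveI : Algebra.IsSeparable M (Sep M) := IsSepClosure.separable
  obtain ⟨ι, -⟩ : ∃ ι : Sep M →ₐ[M] Sep F, True := ⟨IsSepClosed.lift, trivial⟩
  obtain ⟨ι', hι'⟩ : ∃ ι' : Sep M →ₐ[M] Sep F, ι' = ι.restrictScalars M := ⟨_, rfl⟩
  have hιx : ∀ x, ι x = ι' x := fun x => by rw [hι']; rfl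
  obtain ⟨Z, hZ3, hZ⟩ := exists_Z (Ω := Sep M) A B hD
  obtain ⟨t₁, t₂, t₃, n12, n13, n23, hZt⟩ := Finset.card_eq_three.1 hZ3
  have hmem : ∀ t : Sep M, t ∈ Z ↔ (t = t₁ ∨ t = t₂ ∨ t = t₃) := by
    intro t
    rw [hZt]
    simp
  have r1 : Rt A B (ι' t₁) := Rt_map ι' ((mem_Z hZ t₁).1 ((hmem _).2 (Or.inl rfl)))
  have r2 : Rt A B (ι' t₂) := Rt_map ι' ((mem_Z hZ t₂).1 ((hmem _).2 (Or.inr (Or.inl rfl))))
  have r3 : Rt A B (ι' t₃) := Rt_map ι' ((mem_Z hZ t₃).1 ((hmem _).2 (Or.inr (Or.inr rfl))))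
  have m12 : ι' t₁ ≠ ι' t₂ := fun e => n12 (ι'.injective e)
  have m13 : ι' t₁ ≠ ι' t₃ := fun e => n13 (ι'.injective e)
  have m23 : ι' t₂ ≠ ι' t₃ := fun e => n23 (ι'.injective e)
  obtain ⟨-, hadd, hzero, -⟩ := h3 M (Sep F) A B h6 hD _ _ _ r1 r2 r3 m12 m13 m23
  -- the values of `h`
  have hval : ∀ t ∈ Z, eval (ι' t) ((h.map (algebraMap M F)).map
      (algebraMap F (Sep F))) = ι' (β t) ^ 2 := by
    intro t ht
    rw [Polynomial.map_map, ← IsScalarTower.algebraMap_eq, ← map_pow,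
      ← hh t ((mem_Z hZ t).1 ht), eval_map_algebraMap]
    exact aeval_algHom_apply ι' t h
  have hβ0 : ∀ t ∈ Z, ι' (β t) ≠ 0 := fun t ht e =>
    (hβ t ((mem_Z hZ t).1 ht)).1 ((map_eq_zero ι').1 e)
  -- divisibility by the cubic polynomial
  have hdvd : ∀ p : F[X], X ^ 3 + C (algebraMap M F A) * X + C (algebraMap M F B) ∣ p →
      ∀ t ∈ Z, eval (ι' t) (p.map (algebraMap F (Sep F))) = 0 := by
    rintro p ⟨q, rfl⟩ t ht
    have hR : Rt A B (ι' t) := Rt_map ι' ((mem_Z hZ t).1 ht)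
    have hR' : ι' t ^ 3 + algebraMap M (Sep F) A * ι' t + algebraMap M (Sep F) B = 0 := hR
    rw [Polynomial.map_mul, eval_mul]
    simp only [Polynomial.map_add, Polynomial.map_mul, Polynomial.map_pow, map_X, map_C, eval_add,
      eval_mul, eval_pow, eval_X, eval_C, ← IsScalarTower.algebraMap_apply]
    rw [hR', zero_mul]
  -- polynomials with coefficients in `F`
  have hg : ∀ (g : F[X]) (τ : Sep F ≃ₐ[F] Sep F) (u : Sep F),
      τ (eval u (g.map (algebraMap F (Sep F)))) = eval (τ u) (g.map (algebraMap F (Sep F))) := by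
    intro g τ u
    rw [eval_map_algebraMap, eval_map_algebraMap]
    exact (aeval_algHom_apply (τ : Sep F →ₐ[F] Sep F) u g).symm
  -- the common part
  have common : ∀ (R : Pt (sW A B) (Sep F)) (κ : Sep M → Sep F) (g : F[X]) (s : Sep F),
      (s = 1 ∨ s = -1) → (∀ t ∈ Z, κ t ≠ 0) →
      (∀ t ∈ Z, κ t * ι' (β t) = s * eval (ι' t) (g.map (algebraMap F (Sep F)))) →
      (∀ τ : Sep F ≃ₐ[F] Sep F, (2 : ℕ) • (act (sW A B) (rs M τ) R - R) = 0) →
      (∀ (τ : Sep F ≃ₐ[F] Sep F) (σ : Sep M ≃ₐ[M] Sep M), (∀ x, τ (ι' x) = ι' (σ x)) → ∀ t ∈ Z,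
        τ (κ t) = sg (act (sW A B) (rs M τ) R - R) (ι' (σ t)) * κ (σ t)) →
      ∀ (τ : Sep F ≃ₐ[F] Sep F) (σ : Sep M ≃ₐ[M] Sep M), (∀ x, τ (ι' x) = ι' (σ x)) →
        act (sW A B) ι' (f σ) = act (sW A B) (rs M τ) R - R := by
    intro R κ g s hs hκ0 hκ hR2 hκτ τ σ hτσ
    obtain ⟨D, hDd⟩ : ∃ D, D = act (sW A B) (rs M τ) R - R := ⟨_, rfl⟩
    have hD2 := hR2 τ
    have hκτ' := hκτ τ σ hτσ
    rw [← hDd] at hD2 hκτ' ⊢
    have hX2 : (2 : ℕ) • act (sW A B) ι' (f σ) = 0 := by rw [← map_nsmul, hf2, map_zero]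
    have hsgs : ∀ t ∈ Z, sg (act (sW A B) ι' (f σ) + D) (ι' t) = 1 := by
      intro t0 ht0
      obtain ⟨t, ht⟩ : ∃ t, t = σ.symm t0 := ⟨_, rfl⟩
      have htσ : σ t = t0 := by rw [ht, AlgEquiv.apply_symm_apply]
      have hR : Rt A B t := by
        rw [ht]
        exact Rt_map (σ.symm : Sep M →ₐ[M] Sep M) ((mem_Z hZ t0).1 ht0)
      have htZ : t ∈ Z := (mem_Z hZ t).2 hR
      rw [hadd _ _ _ hX2 hD2 (Rt_map ι' ((mem_Z hZ t0).1 ht0))]
      have e3 : sg (act (sW A B) ι' (f σ)) (ι' t0) = ι' (sg (f σ) t0) :=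
        (h4 M _ _ _ _ ι' (f σ) t0).1
      have e4 : τ (ι' (β t)) = ι' (sg (f σ) t0) * ι' (β t0) := by
        rw [hτσ, (hβ t hR).2 σ, map_mul, htσ]
      have e5 : τ (κ t * ι' (β t)) = κ t0 * ι' (β t0) := by
        rw [hκ t htZ, map_mul, hg, hτσ, htσ, hκ t0 ht0]
        rcases hs with rfl | rfl
        · rw [map_one]
        · rw [map_neg, map_one]
      rw [map_mul, hκτ' t htZ, htσ, e4, ← e3] at e5
      have e6 : κ t0 * ι' (β t0) ≠ 0 := mul_ne_zero (hκ0 t0 ht0) (hβ0 t0 ht0)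
      apply mul_right_cancel₀ e6
      linear_combination e5
    have hsum : act (sW A B) ι' (f σ) + D = 0 :=
      hzero _ (by rw [smul_add, hX2, hD2, add_zero]) (hsgs t₁ ((hmem _).2 (Or.inl rfl)))
        (hsgs t₂ ((hmem _).2 (Or.inr (Or.inl rfl)))) (hsgs t₃ ((hmem _).2 (Or.inr (Or.inr rfl))))
    have hDD : D + D = 0 := by rw [← two_nsmul]; exact hD2
    rw [eq_neg_of_add_eq_zero_left hsum]
    exact (eq_neg_of_add_eq_zero_left hDD).symm
  -- reduction to the existence of a point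
  suffices hex : ∃ R : Pt (sW A B) (Sep F), ∀ (τ : Sep F ≃ₐ[F] Sep F) (σ : Sep M ≃ₐ[M] Sep M),
      (∀ x, τ (ι' x) = ι' (σ x)) → act (sW A B) ι' (f σ) = act (sW A B) (rs M τ) R - R by
    obtain ⟨R, hR⟩ := hex
    refine ⟨ι, R, fun τ σ hτσ => ?_⟩
    rw [← hι']
    exact hR τ σ fun x => by rw [← hιx, ← hιx]; exact hτσ x
  -- inverse images of the zeros
  have hpt : ∀ u : Sep F, (u = ι' t₁ ∨ u = ι' t₂ ∨ u = ι' t₃) → ∃ t ∈ Z, u = ι' t := by
    rintro u (rfl | rfl | rfl)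
    · exact ⟨t₁, (hmem _).2 (Or.inl rfl), rfl⟩
    · exact ⟨t₂, (hmem _).2 (Or.inr (Or.inl rfl)), rfl⟩
    · exact ⟨t₃, (hmem _).2 (Or.inr (Or.inr rfl)), rfl⟩
  have hpt' : ∀ t ∈ Z, (ι' t = ι' t₁ ∨ ι' t = ι' t₂ ∨ ι' t = ι' t₃) := by
    intro t ht
    rcases (hmem t).1 ht with rfl | rfl | rfl
    · exact Or.inl rfl
    · exact Or.inr (Or.inl rfl)
    · exact Or.inr (Or.inr rfl)
  -- the square root `β` as a function on `Sep F`
  obtain ⟨c, hc⟩ : ∃ c : Sep F → Sep F, ∀ t ∈ Z, c (ι' t) = ι' (β t) := by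
    refine ⟨fun u => if hu : ∃ t, ι' t = u then ι' (β hu.choose) else 0, fun t ht => ?_⟩
    have hu : ∃ t', ι' t' = ι' t := ⟨t, rfl⟩
    show (if hu : ∃ t', ι' t' = ι' t then ι' (β hu.choose) else 0) = ι' (β t)
    rw [dif_pos hu, ι'.injective hu.choose_spec]
  rcases hP with ⟨g, hgd⟩ | ⟨x, y, hy, hxy, g, hgd⟩
  · -- first case
    have hv : ∀ t ∈ Z, ι' (β t) ^ 2 = eval (ι' t) (g.map (algebraMap F (Sep F))) ^ 2 := by
      intro t ht
      have e := hdvd _ hgd t ht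
      rw [Polynomial.map_sub, Polynomial.map_pow, eval_sub, eval_pow, hval t ht] at e
      exact sub_eq_zero.1 e
    obtain ⟨T, s, hT2, hs, hTs⟩ := sign_point h3 h6 hD r1 r2 r3 m12 m13 m23 c
      (fun u => eval u (g.map (algebraMap F (Sep F)))) (by
        intro u hu
        obtain ⟨t, ht, rfl⟩ := hpt u hu
        rw [hc t ht]
        exact ⟨hβ0 t ht, hv t ht⟩)
    have hsg0 : ∀ (T : Pt (sW A B) (Sep F)) (u : Sep F), sg T u ≠ 0 := by
      intro T u e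
      have := sg_sq T u
      rw [e, mul_zero] at this
      exact zero_ne_one this
    refine ⟨T, common T (fun t => sg T (ι' t)) g s hs (fun t _ => hsg0 _ _) ?_ ?_ ?_⟩
    · intro t ht
      have e := hTs (ι' t) (hpt' t ht)
      rw [hc t ht] at e
      exact e
    · intro τ
      rw [smul_sub, ← map_nsmul, hT2, map_zero, sub_zero]
    · intro τ σ hτσ t ht
      have hR : Rt A B (ι' (σ t)) :=
        Rt_map ι' (Rt_map (σ : Sep M →ₐ[M] Sep M) ((mem_Z hZ t).1 ht))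
      have hτT2 : (2 : ℕ) • (act (sW A B) (rs M τ) T - T) = 0 := by
        rw [smul_sub, ← map_nsmul, hT2, map_zero, sub_zero]
      have e1 := hadd _ _ (ι' (σ t)) hτT2 hT2 hR
      rw [sub_add_cancel] at e1
      show τ (sg T (ι' t)) = _ * sg T (ι' (σ t))
      rw [← e1, ← hτσ]
      exact ((h4 M _ _ _ _ (rs M τ) T (ι' t)).1).symm
  · -- second case
    have hS := isS (Ω := Sep F) h6 hD
    have hns0 : ((sW A B).baseChange F).toAffine.Nonsingular x y :=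
      (isS (Ω := F) h6 hD).nonsingular.2 hxy
    obtain ⟨P, hPd⟩ : ∃ P : Pt (sW A B) F, P = Point.some x y hns0 := ⟨_, rfl⟩
    obtain ⟨P', hP'⟩ : ∃ P' : Pt (sW A B) (Sep F),
      P' = act (sW A B) (incl M F (Sep F)) P := ⟨_, rfl⟩
    obtain ⟨hn', hP'2⟩ : ∃ hn, P' = Point.some (algebraMap F (Sep F) x) (algebraMap F (Sep F) y) hn := by
      rw [hP', hPd]
      exact act_some (sW A B) (incl M F (Sep F)) hns0
    obtain ⟨R₀, hR₀⟩ := Pool.Agent.N721.PP.halve_sep (W := ((sW A B).baseChange (Sep F)).toAffine)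
      (A := algebraMap M (Sep F) A) (B := algebraMap M (Sep F) B)
      ⟨hS.a1, hS.a2, hS.a3, hS.a4, hS.a6⟩ hS.two hS.disc P'
    have h2R₀ : (2 : ℕ) • R₀ = P' := by rw [two_nsmul]; exact hR₀
    have hP'0 : P' ≠ 0 := by
      rw [hP'2]
      exact Point.some_ne_zero _
    have hfixP : ∀ τ : Sep F ≃ₐ[F] Sep F, act (sW A B) (rs M τ) P' = P' := by
      intro τ
      rw [hP', act_act]
      congr 1
      exact congrArg (act (sW A B)) (AlgHom.ext fun z => τ.commutes z)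
    obtain ⟨X', Y', hXY, h2P, hrr⟩ := h1 M _ _ _ h6 hD R₀ (by rw [h2R₀]; exact hP'0)
    have hX' : X' = algebraMap F (Sep F) x := by
      rw [h2R₀, hP'2] at h2P
      exact (Point.some.inj h2P).1.symm
    have hxt : ∀ t ∈ Z, algebraMap F (Sep F) x - ι' t ≠ 0 := by
      intro t ht e
      have hR : ι' t ^ 3 + algebraMap M (Sep F) A * ι' t + algebraMap M (Sep F) B = 0 :=
        Rt_map ι' ((mem_Z hZ t).1 ht)
      have e1 : algebraMap F (Sep F) x = ι' t := sub_eq_zero.1 e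
      have e2 := congrArg (algebraMap F (Sep F)) hxy
      rw [map_add, map_add, map_mul, map_pow, map_pow, ← IsScalarTower.algebraMap_apply,
        ← IsScalarTower.algebraMap_apply, e1, hR] at e2
      have e3 : algebraMap F (Sep F) y = 0 := pow_eq_zero_iff (two_ne_zero) |>.1 e2
      exact hy ((map_eq_zero _).1 e3)
    have hρ : ∀ t ∈ Z, rr (ι' t) R₀ ^ 2 = algebraMap F (Sep F) x - ι' t := by
      intro t ht
      rw [← hX']
      exact hrr (ι' t) (Rt_map ι' ((mem_Z hZ t).1 ht))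
    have hρ0 : ∀ t ∈ Z, rr (ι' t) R₀ ≠ 0 := by
      intro t ht e
      apply hxt t ht
      rw [← hρ t ht, e]
      ring
    have hv : ∀ t ∈ Z, (rr (ι' t) R₀ * ι' (β t)) ^ 2 =
        eval (ι' t) (g.map (algebraMap F (Sep F))) ^ 2 := by
      intro t ht
      have e := hdvd _ hgd t ht
      rw [Polynomial.map_sub, Polynomial.map_pow, Polynomial.map_mul, Polynomial.map_sub, map_C,
        map_X, eval_sub, eval_pow, eval_mul, hval t ht, eval_sub, eval_C, eval_X, ← hρ t ht] at e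
      rw [mul_pow]
      exact sub_eq_zero.1 e
    obtain ⟨T, s, hT2, hs, hTs⟩ := sign_point h3 h6 hD r1 r2 r3 m12 m13 m23
      (fun u => rr u R₀ * c u) (fun u => eval u (g.map (algebraMap F (Sep F)))) (by
        intro u hu
        obtain ⟨t, ht, rfl⟩ := hpt u hu
        show rr (ι' t) R₀ * c (ι' t) ≠ 0 ∧ (rr (ι' t) R₀ * c (ι' t)) ^ 2 = _
        rw [hc t ht]
        exact ⟨mul_ne_zero (hρ0 t ht) (hβ0 t ht), hv t ht⟩)
    have h2R₀0 : (2 : ℕ) • R₀ ≠ 0 := by rw [h2R₀]; exact hP'0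
    have hRR : ∀ t ∈ Z, rr (ι' t) (R₀ + T) = sg T (ι' t) * rr (ι' t) R₀ := fun t ht =>
      h2 M _ _ _ h6 hD R₀ T h2R₀0 hT2 (ι' t) (Rt_map ι' ((mem_Z hZ t).1 ht))
    have hsg0 : ∀ (T : Pt (sW A B) (Sep F)) (u : Sep F), sg T u ≠ 0 := by
      intro T u e
      have := sg_sq T u
      rw [e, mul_zero] at this
      exact zero_ne_one this
    obtain ⟨R, hRd⟩ : ∃ R, R = R₀ + T := ⟨_, rfl⟩
    have h2R : (2 : ℕ) • R = P' := by rw [hRd, smul_add, hT2, add_zero, h2R₀]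
    have h2R0 : (2 : ℕ) • R ≠ 0 := by rw [h2R]; exact hP'0
    have hR2 : ∀ τ : Sep F ≃ₐ[F] Sep F, (2 : ℕ) • (act (sW A B) (rs M τ) R - R) = 0 := by
      intro τ
      rw [smul_sub, ← map_nsmul, h2R, hfixP, sub_self]
    refine ⟨R, common R (fun t => rr (ι' t) R) g s hs ?_ ?_ hR2 ?_⟩
    · intro t ht
      show rr (ι' t) R ≠ 0
      rw [hRd, hRR t ht]
      exact mul_ne_zero (hsg0 _ _) (hρ0 t ht)
    · intro t ht
      have e := hTs (ι' t) (hpt' t ht)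
      simp only [hc t ht] at e
      show rr (ι' t) R * ι' (β t) = _
      rw [hRd, hRR t ht, mul_assoc]
      exact e
    · intro τ σ hτσ t ht
      have hR : Rt A B (ι' (σ t)) :=
        Rt_map ι' (Rt_map (σ : Sep M →ₐ[M] Sep M) ((mem_Z hZ t).1 ht))
      have e1 := h2 M _ _ _ h6 hD R _ h2R0 (hR2 τ) (ι' (σ t)) hR
      rw [add_sub_cancel] at e1
      show τ (rr (ι' t) R) = _ * rr (ι' (σ t)) R
      rw [← e1, ← hτσ]
      exact ((h4 M _ _ _ _ (rs M τ) R (ι' t)).2).symm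

/-- Part CD. -/
theorem cd : Pool.Agent.H458.AR.S_CD := by
  intro A B hD _ f hf hf2 h hR hcop F _ _ hP
  obtain ⟨β, hβ, hh⟩ := hR
  exact main ℚ F A B (by norm_num) hD f hf2 β h hβ hh hP

end Pool.Agent.H969.AR458
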